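import Pool.Agent.U33.AS.Parity

/-!
# Products of Sidon sets: few probes, few representations
-/

set_option autoImplicit false
set_option linter.unusedSectionVars false

namespace Pool.Agent.U33.AS

open Finset
open Pool.Agent.TH163.AC3 (HasDT ovr hasDT_query hasDT_const)
open Pool.Agent.U33.TS (rep finite_multisets)

lemma hasDT_of_dep {I : Type} [DecidableEq I] (A : Finset I) (f : (I → Bool) → Bool)
    (hf : ∀ x y, (∀ i ∈ A, x i = y i) → f x = f y) : HasDT A.card f := by
  have := hasDT_query A f 0 (fun π => hasDT_const (f π) (fun x => hf _ _ fun i hi => by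
    unfold ovr
    rw [if_pos hi]) 0)
  simpa using this

/-- the `i`-th block -/
def block {M B : ℕ} (y : Fin (M * B) → Bool) (i : Fin M) : Fin B → Bool :=
  fun k => y (finProdFinEquiv (i, k))

lemma block_ext {M B : ℕ} {y y' : Fin (M * B) → Bool} (h : ∀ i, block y i = block y' i) :
    y = y' := by
  funext n
  have h1 := congrFun (h (finProdFinEquiv.symm n).1) (finProdFinEquiv.symm n).2
  unfold block at h1
  have h2 : finProdFinEquiv ((finProdFinEquiv.symm n).1, (finProdFinEquiv.symm n).2) = n :=
    finProdFinEquiv.apply_symm_apply n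
  rwa [h2] at h1

/-- **Few probes and few representations.** -/
theorem blocks (B M : ℕ) (hB : 1 ≤ B) : ∃ F : (Fin (M * B) → Bool) → ℕ,
    Function.Injective F ∧ Probed (M * B) (M * (B + B)) B F ∧
      ∀ n, rep (Set.range F) 2 n ≤ 2 ^ M := by
  classical
  obtain ⟨G, E, hG, hGE, hGr⟩ := parity_example B hB
  obtain ⟨F, hF⟩ : ∃ F : (Fin (M * B) → Bool) → ℕ,
      F = fun y => ∑ i : Fin M, G (block y i) * (16 ^ B) ^ (i : ℕ) := ⟨_, rfl⟩
  have hpar : ∀ (j : Fin (B + B)) (x : Fin B → Bool), par (E j) x ≤ 1 := by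
    intro j x
    unfold par
    omega
  -- sums of two values
  have hlt : ∀ x x' : Fin B → Bool, G x + G x' < 16 ^ B := by
    intro x x'
    have h1 : G x + G x' = ∑ n ∈ range (B + B),
        (if hn : n < B + B then par (E ⟨n, hn⟩) x + par (E ⟨n, hn⟩) x' else 0) * 4 ^ n := by
      rw [hGE, hGE, ← Fin.sum_univ_eq_sum_range (fun n => (if hn : n < B + B then
        par (E ⟨n, hn⟩) x + par (E ⟨n, hn⟩) x' else 0) * 4 ^ n), ← sum_add_distrib]
      refine sum_congr rfl fun i _ => ?_
      rw [dif_pos i.2]
      ring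
    have h2 : ∀ n : ℕ, (if hn : n < B + B then par (E ⟨n, hn⟩) x + par (E ⟨n, hn⟩) x' else 0) < 4 := by
      intro n
      split_ifs with hn
      · have := hpar ⟨n, hn⟩ x
        have := hpar ⟨n, hn⟩ x'
        omega
      · omega
    have h3 := digits_lt _ h2 (B + B)
    rw [h1]
    have h4 : (16 : ℕ) ^ B = 4 ^ (B + B) := by
      rw [← two_mul, pow_mul]
      norm_num
    rw [h4]
    exact h3
  have key : ∀ y y' u u' : Fin (M * B) → Bool, F y + F y' = F u + F u' → ∀ i,
      G (block y i) + G (block y' i) = G (block u i) + G (block u' i) := by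
    intro y y' u u' h i
    have h1 : ∀ v v' : Fin (M * B) → Bool, F v + F v' = ∑ n ∈ range M,
        (if hn : n < M then G (block v ⟨n, hn⟩) + G (block v' ⟨n, hn⟩) else 0) * (16 ^ B) ^ n := by
      intro v v'
      rw [hF, ← Fin.sum_univ_eq_sum_range (fun n => (if hn : n < M then
        G (block v ⟨n, hn⟩) + G (block v' ⟨n, hn⟩) else 0) * (16 ^ B) ^ n), ← sum_add_distrib]
      refine sum_congr rfl fun i _ => ?_
      rw [dif_pos i.2]
      ring
    rw [h1, h1] at h
    have h2 : ∀ (v v' : Fin (M * B) → Bool) (n : ℕ),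
        (if hn : n < M then G (block v ⟨n, hn⟩) + G (block v' ⟨n, hn⟩) else 0) < 16 ^ B := by
      intro v v' n
      split_ifs with hn
      · exact hlt _ _
      · positivity
    have h3 := digits_inj _ _ (h2 y y') (h2 u u') _ h i i.2
    rw [dif_pos i.2, dif_pos i.2] at h3
    exact h3
  have swap : ∀ x x' v v' : Fin B → Bool, G x + G x' = G v + G v' →
      (x = v ∧ x' = v') ∨ (x = v' ∧ x' = v) := by
    intro x x' v v' h
    have h1 := hGr (G x + G x')
    unfold rep at h1
    rw [Set.ncard_le_one (finite_multisets _ _ _)] at h1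
    have h2 := h1 {G x, G x'} ⟨by simp, by simp, by simp⟩ {G v, G v'} ⟨by simp, by simp, by simp [h]⟩
    have h3 : G x ∈ ({G v, G v'} : Multiset ℕ) := by rw [← h2]; simp
    simp only [Multiset.insert_eq_cons, Multiset.mem_cons, Multiset.mem_singleton] at h3
    rcases h3 with h3 | h3
    · left
      exact ⟨hG h3, hG (by omega)⟩
    · right
      exact ⟨hG h3, hG (by omega)⟩
  have hinj : Function.Injective F := by
    intro y y' h
    apply block_ext
    intro i
    have h1 := key y y y' y' (by rw [h]) i
    exact hG (by omega)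
  refine ⟨F, hinj, ?_, ?_⟩
  · refine ⟨fun n y => decide (par (E (finProdFinEquiv.symm n).2)
      (block y (finProdFinEquiv.symm n).1) = 1),
      fun n => (4 ^ ((finProdFinEquiv.symm n).2 : ℕ) * (16 ^ B) ^ ((finProdFinEquiv.symm n).1 : ℕ) : ℕ),
      fun n => ?_, fun y => ?_⟩
    · have h1 := hasDT_of_dep (univ.image fun k : Fin B =>
        finProdFinEquiv ((finProdFinEquiv.symm n).1, k))
        (fun y : Fin (M * B) → Bool => decide (par (E (finProdFinEquiv.symm n).2)
          (block y (finProdFinEquiv.symm n).1) = 1)) (by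
          intro x y hxy
          have : block x (finProdFinEquiv.symm n).1 = block y (finProdFinEquiv.symm n).1 := by
            funext k
            exact hxy _ (mem_image_of_mem _ (mem_univ k))
          show decide _ = decide _
          rw [this])
      refine h1.mono ?_
      refine card_image_le.trans ?_
      simp
    · have h1 : (F y : ℤ) = ∑ p : Fin M × Fin (B + B),
          ((4 ^ (p.2 : ℕ) * (16 ^ B) ^ (p.1 : ℕ) : ℕ) : ℤ) *
            (((decide (par (E p.2) (block y p.1) = 1)).toNat : ℕ) : ℤ) := by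
        rw [hF]
        show ((∑ i : Fin M, G (block y i) * (16 ^ B) ^ (i : ℕ) : ℕ) : ℤ) = _
        rw [Fintype.sum_prod_type]
        push_cast
        refine sum_congr rfl fun i _ => ?_
        rw [hGE]
        push_cast
        rw [sum_mul]
        refine sum_congr rfl fun j _ => ?_
        have h2 : ((decide (par (E j) (block y i) = 1)).toNat : ℕ) = par (E j) (block y i) := by
          have h3 := hpar j (block y i)
          rcases Nat.le_one_iff_eq_zero_or_eq_one.1 h3 with h4 | h4 <;> simp [h4]
        rw [h2]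
        ring
      rw [h1]
      exact (Equiv.sum_comp finProdFinEquiv.symm (fun p : Fin M × Fin (B + B) =>
        ((4 ^ (p.2 : ℕ) * (16 ^ B) ^ (p.1 : ℕ) : ℕ) : ℤ) *
          (((decide (par (E p.2) (block y p.1) = 1)).toNat : ℕ) : ℤ))).symm
  · intro n
    unfold rep
    obtain ⟨S, hS⟩ : ∃ S, S = {s : Multiset ℕ | Multiset.card s = 2 ∧ (∀ a ∈ s, a ∈ Set.range F) ∧
      s.sum = n} := ⟨_, rfl⟩
    rw [← hS]
    rcases S.eq_empty_or_nonempty with h0 | ⟨s0, hs0⟩
    · rw [h0, Set.ncard_empty]
      exact Nat.zero_le _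
    have hpr : ∀ s : Multiset ℕ, ∃ p : (Fin (M * B) → Bool) × (Fin (M * B) → Bool), s ∈ S →
        (s = {F p.1, F p.2} ∧ F p.1 + F p.2 = n) := by
      intro s
      by_cases hs : s ∈ S
      · rw [hS] at hs
        obtain ⟨h1, h2, h3⟩ := hs
        rw [Multiset.card_eq_two] at h1
        obtain ⟨a, b, rfl⟩ := h1
        obtain ⟨y, hy⟩ := h2 a (by simp)
        obtain ⟨y', hy'⟩ := h2 b (by simp)
        refine ⟨(y, y'), fun _ => ⟨by rw [hy, hy'], ?_⟩⟩
        rw [← h3, hy, hy']
        simp
      · exact ⟨(fun _ => false, fun _ => false), fun h => absurd h hs⟩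
    choose p hp using hpr
    have hinjS : Set.InjOn (fun (s : Multiset ℕ) (i : Fin M) =>
        decide (block (p s).1 i = block (p s0).1 i)) S := by
      intro s hs s' hs' he
      have hsw : ∀ s ∈ S, ∀ i, (block (p s).1 i = block (p s0).1 i ∧
          block (p s).2 i = block (p s0).2 i) ∨ (block (p s).1 i = block (p s0).2 i ∧
          block (p s).2 i = block (p s0).1 i) := by
        intro s hs i
        apply swap
        exact key _ _ _ _ (by rw [(hp s hs).2, (hp s0 hs0).2]) i
      have h1 : ∀ i, block (p s).1 i = block (p s').1 i ∧ block (p s).2 i = block (p s').2 i := by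
        intro i
        have h2 : (block (p s).1 i = block (p s0).1 i) ↔ (block (p s').1 i = block (p s0).1 i) := by
          have := congrFun he i
          exact decide_eq_decide.1 this
        rcases hsw s hs i with ⟨h3, h4⟩ | ⟨h3, h4⟩
        · have h5 := h2.1 h3
          rcases hsw s' hs' i with ⟨h6, h7⟩ | ⟨h6, h7⟩
          · exact ⟨h3.trans h5.symm, h4.trans h7.symm⟩
          · refine ⟨h3.trans h5.symm, ?_⟩
            rw [h4, h7, ← h5, h6]
        · rcases hsw s' hs' i with ⟨h6, h7⟩ | ⟨h6, h7⟩
          · have h5 := h2.2 h6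
            refine ⟨h5.trans h6.symm, ?_⟩
            rw [h4, h7, ← h5, h3]
          · exact ⟨h3.trans h6.symm, h4.trans h7.symm⟩
      have h2 : (p s).1 = (p s').1 := block_ext fun i => (h1 i).1
      have h3 : (p s).2 = (p s').2 := block_ext fun i => (h1 i).2
      rw [(hp s hs).1, (hp s' hs').1, h2, h3]
    calc S.ncard = ((fun (s : Multiset ℕ) (i : Fin M) =>
        decide (block (p s).1 i = block (p s0).1 i)) '' S).ncard := hinjS.ncard_image.symm
      _ ≤ (Set.univ : Set (Fin M → Bool)).ncard :=
          Set.ncard_le_ncard (Set.subset_univ _) (Set.toFinite _)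
      _ = 2 ^ M := by
          rw [Set.ncard_univ, Nat.card_eq_fintype_card, Fintype.card_fun, Fintype.card_bool,
            Fintype.card_fin]

end Pool.Agent.U33.AS
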