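import Pool.Agent.U33.AS.Sharp

/-!
# Sidon sets whose digits are parities of products of two bits
-/

set_option autoImplicit false
set_option linter.unusedSectionVars false

namespace Pool.Agent.U33.AS

open Finset
open Pool.Agent.U33.TS (rep finite_multisets)

/-- the parity of the number of the pairs in `E` on which `x` is true -/
def par {m : ℕ} (E : Finset (Fin m × Fin m)) (x : Fin m → Bool) : ℕ :=
  (E.filter fun p => x p.1 = true ∧ x p.2 = true).card % 2

lemma par_cast {m : ℕ} (E : Finset (Fin m × Fin m)) (x : Fin m → Bool) :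
    ((par E x : ℕ) : ZMod 2) = ∑ p ∈ E, (if x p.1 = true then (1 : ZMod 2) else 0) *
      (if x p.2 = true then 1 else 0) := by
  unfold par
  rw [ZMod.natCast_mod, card_filter]
  push_cast
  refine sum_congr rfl fun p _ => ?_
  by_cases h1 : x p.1 = true <;> by_cases h2 : x p.2 = true <;> simp [h1, h2]

lemma zmod2 : ∀ c : ZMod 2, c = 0 ∨ c = 1 := by decide

lemma zmod2_ne : ¬ (0 : ZMod 2) = 1 := by decide

/-- two elements with given sum and given sum of cubes, in characteristic two -/
lemma cubes {K : Type} [Field K] [CharP K 2] {a b c d : K} (hs : a + b = c + d)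
    (h3 : a ^ 3 + b ^ 3 = c ^ 3 + d ^ 3) (hne : a ≠ b) : (a = c ∧ b = d) ∨ (a = d ∧ b = c) := by
  have h2 : (2 : K) = 0 := CharP.cast_eq_zero K 2
  have hab : a + b ≠ 0 := by
    intro h
    apply hne
    have : a = -b := eq_neg_of_add_eq_zero_left h
    rw [this]
    linear_combination (-b) * h2
  have h4 : (a + b) * (a * b) = (a + b) * (c * d) := by
    have e1 : a ^ 3 + b ^ 3 = (a + b) ^ 3 - 3 * ((a + b) * (a * b)) := by ring
    have e2 : c ^ 3 + d ^ 3 = (a + b) ^ 3 - 3 * ((a + b) * (c * d)) := by rw [hs]; ring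
    rw [e1, e2] at h3
    linear_combination -h3 - ((a + b) * (a * b) - (a + b) * (c * d)) * h2
  have h5 : a * b = c * d := mul_left_cancel₀ hab h4
  have h6 : (a - c) * (a - d) = 0 := by
    linear_combination a * hs - h5 
  rcases mul_eq_zero.1 h6 with h | h
  · left
    have h7 : a = c := sub_eq_zero.1 h
    refine ⟨h7, ?_⟩
    rw [h7] at hs
    exact add_left_cancel hs
  · right
    have h7 : a = d := sub_eq_zero.1 h
    refine ⟨h7, ?_⟩
    rw [h7, add_comm c d] at hs
    exact add_left_cancel hs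

/-- **Parity gates.** -/
theorem parity_example (m : ℕ) (hm : 1 ≤ m) : ∃ (F : (Fin m → Bool) → ℕ)
    (E : Fin (m + m) → Finset (Fin m × Fin m)), Function.Injective F ∧
      (∀ x, F x = ∑ j : Fin (m + m), 4 ^ (j : ℕ) * par (E j) x) ∧
      ∀ n, rep (Set.range F) 2 n ≤ 1 := by
  classical
  have : Fact (Nat.Prime 2) := ⟨Nat.prime_two⟩
  obtain ⟨K, hK⟩ : ∃ K, K = GaloisField 2 m := ⟨_, rfl⟩
  subst hK
  have hfr : Module.finrank (ZMod 2) (GaloisField 2 m) = m := GaloisField.finrank 2 (by omega)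
  obtain ⟨b⟩ : Nonempty (Module.Basis (Fin m) (ZMod 2) (GaloisField 2 m)) :=
    ⟨Module.finBasisOfFinrankEq _ _ hfr⟩
  obtain ⟨w, hw⟩ : ∃ w : (Fin m → Bool) → Fin m → ZMod 2,
      w = fun x i => if x i = true then 1 else 0 := ⟨_, rfl⟩
  obtain ⟨y, hy⟩ : ∃ y : (Fin m → Bool) → GaloisField 2 m, y = fun x => ∑ i, w x i • b i :=
    ⟨_, rfl⟩
  have hwinj : Function.Injective w := by
    intro x x' h
    funext i
    have h1 := congrFun h i
    rw [hw] at h1
    by_cases h2 : x i = true <;> by_cases h3 : x' i = true <;> simp_all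
  have hyr : ∀ x i, b.repr (y x) i = w x i := by
    intro x i
    rw [hy]
    simp only [map_sum, map_smul, Module.Basis.repr_self, Finsupp.coe_finsetSum, Finset.sum_apply,
      Finsupp.smul_apply, smul_eq_mul, Finsupp.single_apply]
    simp
  have hyinj : Function.Injective y := by
    intro x x' h
    apply hwinj
    funext i
    rw [← hyr, ← hyr, h]
  have hw2 : ∀ x i, w x i * w x i = w x i := by
    intro x i
    rw [hw]
    by_cases h : x i = true <;> simp [h]
  have hy3 : ∀ x, y x ^ 3 = ∑ p : Fin m × Fin m, (w x p.1 * w x p.2) • (b p.1 ^ 2 * b p.2) := by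
    intro x
    have h1 : y x ^ 2 = ∑ i, w x i • b i ^ 2 := by
      rw [hy]
      show (∑ i, w x i • b i) ^ 2 = _
      rw [sum_pow_char 2]
      refine sum_congr rfl fun i _ => ?_
      rw [smul_pow, sq (w x i), hw2]
    have h2 : y x ^ 3 = y x ^ 2 * y x := by ring
    rw [h2, h1]
    conv_lhs => rw [hy]
    show (∑ i, w x i • b i ^ 2) * (∑ i, w x i • b i) = _
    rw [sum_mul_sum, Fintype.sum_prod_type]
    refine sum_congr rfl fun i _ => sum_congr rfl fun j _ => ?_
    rw [smul_mul_smul_comm]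
  obtain ⟨E, hE⟩ : ∃ E : Fin (m + m) → Finset (Fin m × Fin m), E = Fin.append
      (fun k => {(k, k)}) (fun k => univ.filter fun p => b.repr (b p.1 ^ 2 * b p.2) k = 1) :=
    ⟨_, rfl⟩
  have hE1 : ∀ (x : Fin m → Bool) (k : Fin m),
      ((par (E (Fin.castAdd m k)) x : ℕ) : ZMod 2) = b.repr (y x) k := by
    intro x k
    rw [par_cast, hE, Fin.append_left, sum_singleton, hyr, ← hw2, hw]
  have hE2 : ∀ (x : Fin m → Bool) (k : Fin m),
      ((par (E (Fin.natAdd m k)) x : ℕ) : ZMod 2) = b.repr (y x ^ 3) k := by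
    intro x k
    rw [par_cast, hE, Fin.append_right, hy3, sum_filter]
    simp only [map_sum, map_smul, Finsupp.coe_finsetSum, Finset.sum_apply, Finsupp.smul_apply,
      smul_eq_mul]
    refine sum_congr rfl fun p _ => ?_
    have hwp : w x p.1 * w x p.2 = (if x p.1 = true then (1 : ZMod 2) else 0) *
      (if x p.2 = true then 1 else 0) := by rw [hw]
    rw [hwp]
    rcases zmod2 (b.repr (b p.1 ^ 2 * b p.2) k) with h | h
    · rw [h, if_neg zmod2_ne, mul_zero]
    · rw [h, if_pos rfl, mul_one]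
  obtain ⟨F, hF⟩ : ∃ F : (Fin m → Bool) → ℕ,
      F = fun x => ∑ j : Fin (m + m), 4 ^ (j : ℕ) * par (E j) x := ⟨_, rfl⟩
  have hpar : ∀ (j : Fin (m + m)) (x : Fin m → Bool), par (E j) x ≤ 1 := by
    intro j x
    unfold par
    omega
  -- equal sums
  have key : ∀ x x' u u' : Fin m → Bool, F x + F x' = F u + F u' →
      ∀ j, par (E j) x + par (E j) x' = par (E j) u + par (E j) u' := by
    intro x x' u u' h j
    have h1 : ∀ v v' : Fin m → Bool, F v + F v' = ∑ n ∈ range (m + m),
        (if hn : n < m + m then par (E ⟨n, hn⟩) v + par (E ⟨n, hn⟩) v' else 0) * 4 ^ n := by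
      intro v v'
      rw [hF, ← Fin.sum_univ_eq_sum_range (fun n => (if hn : n < m + m then
        par (E ⟨n, hn⟩) v + par (E ⟨n, hn⟩) v' else 0) * 4 ^ n), ← sum_add_distrib]
      refine sum_congr rfl fun i _ => ?_
      rw [dif_pos i.2]
      ring
    rw [h1, h1] at h
    have h2 : ∀ (v v' : Fin m → Bool) (n : ℕ),
        (if hn : n < m + m then par (E ⟨n, hn⟩) v + par (E ⟨n, hn⟩) v' else 0) < 4 := by
      intro v v' n
      split_ifs with hn
      · have := hpar ⟨n, hn⟩ v
        have := hpar ⟨n, hn⟩ v'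
        omega
      · omega
    have h3 := digits_inj _ _ (h2 x x') (h2 u u') _ h j j.2
    rw [dif_pos j.2, dif_pos j.2] at h3
    exact h3
  have hinj : Function.Injective F := by
    intro x x' h
    apply hyinj
    apply b.repr.injective
    ext k
    rw [← hE1, ← hE1]
    have := key x x x' x' (by rw [h]) (Fin.castAdd m k)
    congr 1
    omega
  refine ⟨F, E, hinj, fun x => by rw [hF], fun n => ?_⟩
  unfold rep
  rw [Set.ncard_le_one (finite_multisets _ _ _)]
  intro s hs s' hs'
  obtain ⟨h1, h2, h3⟩ := hs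
  obtain ⟨h1', h2', h3'⟩ := hs'
  rw [Multiset.card_eq_two] at h1 h1'
  obtain ⟨p, q, rfl⟩ := h1
  obtain ⟨p', q', rfl⟩ := h1'
  simp only [Multiset.insert_eq_cons, Multiset.mem_cons, Multiset.mem_singleton, forall_eq_or_imp,
    forall_eq, Multiset.sum_cons, Multiset.sum_singleton] at h2 h3 h2' h3'
  obtain ⟨⟨x, rfl⟩, ⟨x', rfl⟩⟩ := h2
  obtain ⟨⟨u, rfl⟩, ⟨u', rfl⟩⟩ := h2'
  have hk := key x x' u u' (by omega)
  have hmod : ∀ j, ((par (E j) x : ℕ) : ZMod 2) + ((par (E j) x' : ℕ) : ZMod 2) =
      ((par (E j) u : ℕ) : ZMod 2) + ((par (E j) u' : ℕ) : ZMod 2) := by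
    intro j
    exact_mod_cast congrArg (Nat.cast : ℕ → ZMod 2) (hk j)
  have e1 : y x + y x' = y u + y u' := by
    apply b.repr.injective
    ext k
    rw [map_add, map_add, Finsupp.add_apply, Finsupp.add_apply, ← hE1, ← hE1, ← hE1, ← hE1]
    exact hmod _
  have e3 : y x ^ 3 + y x' ^ 3 = y u ^ 3 + y u' ^ 3 := by
    apply b.repr.injective
    ext k
    rw [map_add, map_add, Finsupp.add_apply, Finsupp.add_apply, ← hE2, ← hE2, ← hE2, ← hE2]
    exact hmod _
  have : CharP (GaloisField 2 m) 2 := inferInstance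
  by_cases hne : y x = y x'
  · have hxx : x = x' := hyinj hne
    subst hxx
    have huu : u = u' := by
      apply hyinj
      apply b.repr.injective
      ext k
      rw [← hE1, ← hE1]
      have h4 := hk (Fin.castAdd m k)
      have h5 := hpar (Fin.castAdd m k) u
      have h6 := hpar (Fin.castAdd m k) u'
      congr 1
      omega
    subst huu
    have hxu : x = u := by
      apply hyinj
      apply b.repr.injective
      ext k
      rw [← hE1, ← hE1]
      have h4 := hk (Fin.castAdd m k)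
      congr 1
      omega
    rw [hxu]
  · rcases cubes e1 e3 hne with ⟨h4, h5⟩ | ⟨h4, h5⟩
    · rw [hyinj h4, hyinj h5]
    · rw [hyinj h4, hyinj h5]
      exact Multiset.pair_comm _ _

end Pool.Agent.U33.AS
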